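import Pool.Agent.Helper25.FN.Spec

set_option autoImplicit false

/-!
# FN / HIL: existence for the weighted form (Riesz representation and Fredholm alternative)
-/

namespace Pool.Agent.Helper8.FN.HIL

open MeasureTheory
open scoped ContDiff
open Pool.Agent.Helper25.FN
open Pool.Agent.Helper25.FB.Inj (Entire)

/-- Cauchy–Schwarz -/
theorem cs {n : ℕ} (u v : V n → ℝ) (hu : Continuous u) (hv : Continuous v)
    (hu0 : ∀ z, 0 ≤ u z) (hv0 : ∀ z, 0 ≤ v z)
    (iu : Integrable (fun z => u z ^ 2)) (iv : Integrable (fun z => v z ^ 2)) :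
    Integrable (fun z => u z * v z) ∧
      ∫ z, u z * v z ≤ √(∫ z, u z ^ 2) * √(∫ z, v z ^ 2) := by
  have mu : MemLp u 2 := (memLp_two_iff_integrable_sq hu.aestronglyMeasurable).2 iu
  have mv : MemLp v 2 := (memLp_two_iff_integrable_sq hv.aestronglyMeasurable).2 iv
  refine ⟨mu.integrable_mul mv, ?_⟩
  have h2 : (2 : ℝ).HolderConjugate 2 := by
    rw [Real.holderConjugate_iff]; norm_num
  have e2 : ENNReal.ofReal 2 = 2 := by simp
  have := integral_mul_le_Lp_mul_Lq_of_nonneg (μ := (volume : Measure (V n))) h2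
    (f := u) (g := v) (Filter.Eventually.of_forall hu0) (Filter.Eventually.of_forall hv0)
    (by rw [e2]; exact mu) (by rw [e2]; exact mv)
  simpa [Real.sqrt_eq_rpow] using this

/-- the bound for a dominated function -/
theorem bd {n : ℕ} (F : V n → ℂ) (u v : V n → ℝ) (K : ℝ) (hF : Continuous F)
    (hu : Continuous u) (hv : Continuous v)
    (hu0 : ∀ z, 0 ≤ u z) (hv0 : ∀ z, 0 ≤ v z)
    (iu : Integrable (fun z => u z ^ 2)) (iv : Integrable (fun z => v z ^ 2))
    (hK : 0 ≤ K) (h : ∀ z, ‖F z‖ ≤ K * (u z * v z)) :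
    Integrable F ∧ ‖∫ z, F z‖ ≤ K * (√(∫ z, u z ^ 2) * √(∫ z, v z ^ 2)) := by
  obtain ⟨i, b⟩ := cs u v hu hv hu0 hv0 iu iv
  refine ⟨(i.const_mul K).mono' hF.aestronglyMeasurable (Filter.Eventually.of_forall h), ?_⟩
  calc ‖∫ z, F z‖ ≤ ∫ z, K * (u z * v z) :=
        norm_integral_le_of_norm_le (i.const_mul K) (Filter.Eventually.of_forall h)
    _ = K * ∫ z, u z * v z := integral_const_mul _ _
    _ ≤ _ := mul_le_mul_of_nonneg_left b hK

theorem main (hF : S_FRED) (hB : S_BERG) : S_HIL := by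
  intro n ρ β c C R hρ hρ0 hβ hβρ hc hcoer hinj G hG hGi
  obtain ⟨H, i1, i2, i3, ι, hι, hran, hinner, hcpt⟩ := hB n ρ hρ hρ0
  obtain ⟨H₂, j1, j2, j3, K, hK, hKn⟩ := hcpt R
  have hC : 0 ≤ C := by
    have h1 := hβρ 0
    have h2 := hρ0 0
    by_contra h
    push Not at h
    have := mul_neg_of_neg_of_pos h h2
    linarith [norm_nonneg (β 0)]
  have hE : ∀ x : H, Entire (ι x) ∧ Integrable (fun z => ‖ι x z‖ ^ 2 * ρ z) :=
    fun x => (hran (ι x)).1 ⟨x, rfl⟩
  have hcont : ∀ x : H, Continuous (ι x) := fun x => (hE x).1.continuous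
  have hnorm : ∀ x : H, ∫ z, ‖ι x z‖ ^ 2 * ρ z = ‖x‖ ^ 2 := by
    intro x
    have h1 := hinner x x
    rw [inner_self_eq_norm_sq_to_K] at h1
    have h2 : ∀ z, starRingEnd ℂ (ι x z) * ι x z * (ρ z : ℂ) = ((‖ι x z‖ ^ 2 * ρ z : ℝ) : ℂ) := by
      intro z
      rw [← Complex.normSq_eq_conj_mul_self, Complex.normSq_eq_norm_sq]
      push_cast; ring
    simp_rw [h2] at h1
    rw [integral_complex_ofReal] at h1
    have h3 : ((‖x‖ ^ 2 : ℝ) : ℂ) = ((∫ z, ‖ι x z‖ ^ 2 * ρ z : ℝ) : ℂ) := by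
      rw [← h1]; push_cast; rfl
    exact (Complex.ofReal_injective h3).symm
  -- the weight function attached to `x`
  let u : H → V n → ℝ := fun x z => ‖ι x z‖ * √(ρ z)
  have hu : ∀ x, Continuous (u x) := fun x => (hcont x).norm.mul hρ.sqrt
  have hu0 : ∀ x z, 0 ≤ u x z := fun x z => mul_nonneg (norm_nonneg _) (Real.sqrt_nonneg _)
  have hu2 : ∀ x z, u x z ^ 2 = ‖ι x z‖ ^ 2 * ρ z := by
    intro x z
    simp only [u, mul_pow, Real.sq_sqrt (hρ0 z).le]
  have hui : ∀ x, Integrable (fun z => u x z ^ 2) := by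
    intro x; simp_rw [hu2]; exact (hE x).2
  have hun : ∀ x, √(∫ z, u x z ^ 2) = ‖x‖ := by
    intro x
    simp_rw [hu2]
    rw [hnorm, Real.sqrt_sq (norm_nonneg _)]
  -- the form
  have hform : ∀ x y : H, Integrable (fun z => starRingEnd ℂ (ι x z) * ι y z * starRingEnd ℂ (β z)) ∧
      ‖∫ z, starRingEnd ℂ (ι x z) * ι y z * starRingEnd ℂ (β z)‖ ≤ C * (‖x‖ * ‖y‖) := by
    intro x y
    have hc1 : Continuous (fun z => starRingEnd ℂ (ι x z) * ι y z * starRingEnd ℂ (β z)) :=
      ((Complex.continuous_conj.comp (hcont x)).mul (hcont y)).mul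
        (Complex.continuous_conj.comp hβ)
    have := bd _ (u x) (u y) C hc1 (hu x) (hu y) (hu0 x) (hu0 y) (hui x) (hui y) hC (by
      intro z
      rw [norm_mul, norm_mul, RCLike.norm_conj, RCLike.norm_conj]
      have h1 := hβρ z
      have h2 : √(ρ z) * √(ρ z) = ρ z := Real.mul_self_sqrt (hρ0 z).le
      calc ‖ι x z‖ * ‖ι y z‖ * ‖β z‖ ≤ ‖ι x z‖ * ‖ι y z‖ * (C * ρ z) :=
            mul_le_mul_of_nonneg_left h1 (by positivity)
        _ = C * (u x z * u y z) := by
            simp only [u]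
            linear_combination (-(‖ι x z‖ * ‖ι y z‖ * C)) * h2)
    rw [hun, hun] at this
    exact this
  let B₀ : H →ₗ⋆[ℂ] H →ₗ[ℂ] ℂ := LinearMap.mk₂'ₛₗ (starRingEnd ℂ) (RingHom.id ℂ)
    (fun x y => ∫ z, starRingEnd ℂ (ι x z) * ι y z * starRingEnd ℂ (β z))
    (by
      intro x x' y
      rw [← integral_add (hform x y).1 (hform x' y).1]
      congr 1
      funext z
      simp only [map_add, Pi.add_apply]
      ring)
    (by
      intro a x y
      rw [smul_eq_mul, ← integral_const_mul]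
      congr 1
      funext z
      simp only [map_smul, Pi.smul_apply, smul_eq_mul, map_mul]
      ring)
    (by
      intro x y y'
      rw [← integral_add (hform x y).1 (hform x y').1]
      congr 1
      funext z
      simp only [map_add, Pi.add_apply]
      ring)
    (by
      intro a x y
      rw [RingHom.id_apply, smul_eq_mul, ← integral_const_mul]
      congr 1
      funext z
      simp only [map_smul, Pi.smul_apply, smul_eq_mul]
      ring)
  let B : H →L⋆[ℂ] H →L[ℂ] ℂ := LinearMap.mkContinuous₂ B₀ C (by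
    intro x y
    have := (hform x y).2
    calc ‖B₀ x y‖ ≤ C * (‖x‖ * ‖y‖) := this
      _ = C * ‖x‖ * ‖y‖ := by ring)
  let T : H →L[ℂ] H := InnerProductSpace.continuousLinearMapOfBilin B
  have hT : ∀ x y : H, inner ℂ (T x) y =
      ∫ z, starRingEnd ℂ (ι x z) * ι y z * starRingEnd ℂ (β z) := by
    intro x y
    exact InnerProductSpace.continuousLinearMapOfBilin_apply B x y
  have hT' : ∀ x y : H, inner ℂ y (T x) = ∫ z, ι x z * starRingEnd ℂ (ι y z) * β z := by
    intro x y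
    rw [← inner_conj_symm, hT, ← integral_conj]
    congr 1
    funext z
    simp only [map_mul, Complex.conj_conj]
  -- the right hand side
  let v : V n → ℝ := fun z => ‖G z‖ / √(ρ z)
  have hs0 : ∀ z, 0 < √(ρ z) := fun z => Real.sqrt_pos.2 (hρ0 z)
  have hv : Continuous v := hG.norm.div hρ.sqrt (fun z => (hs0 z).ne')
  have hv0 : ∀ z, 0 ≤ v z := fun z => div_nonneg (norm_nonneg _) (hs0 z).le
  have hvi : Integrable (fun z => v z ^ 2) := by
    have : (fun z => v z ^ 2) = fun z => ‖G z‖ ^ 2 / ρ z := by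
      funext z
      simp only [v, div_pow, Real.sq_sqrt (hρ0 z).le]
    rw [this]; exact hGi
  have hg : ∀ x : H, Integrable (fun z => ι x z * starRingEnd ℂ (G z)) ∧
      ‖∫ z, ι x z * starRingEnd ℂ (G z)‖ ≤ 1 * (‖x‖ * √(∫ z, v z ^ 2)) := by
    intro x
    have hc1 : Continuous (fun z => ι x z * starRingEnd ℂ (G z)) :=
      (hcont x).mul (Complex.continuous_conj.comp hG)
    have := bd _ (u x) v 1 hc1 (hu x) hv (hu0 x) hv0 (hui x) hvi zero_le_one (by
      intro z
      rw [norm_mul, RCLike.norm_conj]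
      have h2 := (hs0 z).ne'
      apply le_of_eq
      simp only [u, v]
      field_simp)
    rw [hun] at this
    exact this
  let φ₀ : H →ₗ[ℂ] ℂ :=
    { toFun := fun x => ∫ z, ι x z * starRingEnd ℂ (G z)
      map_add' := by
        intro x y
        rw [← integral_add (hg x).1 (hg y).1]
        congr 1
        funext z
        simp only [map_add, Pi.add_apply]
        ring
      map_smul' := by
        intro a x
        rw [RingHom.id_apply, smul_eq_mul, ← integral_const_mul]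
        congr 1
        funext z
        simp only [map_smul, Pi.smul_apply, smul_eq_mul]
        ring }
  let φ : H →L[ℂ] ℂ := φ₀.mkContinuous (√(∫ z, v z ^ 2)) (by
    intro x
    have := (hg x).2
    calc ‖φ₀ x‖ ≤ 1 * (‖x‖ * √(∫ z, v z ^ 2)) := this
      _ = _ := by ring)
  obtain ⟨w, hw⟩ : ∃ w : H, ∀ x : H, inner ℂ w x = ∫ z, ι x z * starRingEnd ℂ (G z) := by
    refine ⟨(InnerProductSpace.toDual ℂ H).symm φ, fun x => ?_⟩
    rw [InnerProductSpace.toDual_symm_apply]
    rfl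
  -- injectivity
  have hTinj : Function.Injective T := by
    rw [injective_iff_map_eq_zero]
    intro x hx
    apply hι
    rw [map_zero]
    funext z
    refine hinj (ι x) (hE x).1 (hE x).2 ?_ z
    intro g hg1 hg2
    obtain ⟨y, rfl⟩ := (hran g).2 ⟨hg1, hg2⟩
    rw [← hT', hx, inner_zero_right]
  have hcc : ∀ x : H, c * ‖x‖ ^ 2 ≤ (inner ℂ x (T x)).re + C * ‖K x‖ ^ 2 := by
    intro x
    have h1 := hcoer (ι x) (hE x).1 (hE x).2
    rw [hnorm, ← hKn] at h1
    rw [hT']
    have h2 : ∀ z, ι x z * starRingEnd ℂ (ι x z) * β z = β z * ((‖ι x z‖ ^ 2 : ℝ) : ℂ) := by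
      intro z
      rw [Complex.mul_conj, Complex.normSq_eq_norm_sq]
      ring
    simp_rw [h2]
    exact h1
  obtain ⟨x, hx⟩ := hF H H₂ T K c C hc hK hcc hTinj w
  refine ⟨ι x, (hE x).1, (hE x).2, ?_⟩
  intro g hg1 hg2
  obtain ⟨y, rfl⟩ := (hran g).2 ⟨hg1, hg2⟩
  rw [← hT', hx, ← inner_conj_symm, hw, ← integral_conj]
  congr 1
  funext z
  simp only [map_mul, Complex.conj_conj]
  ring

end Pool.Agent.Helper8.FN.HIL
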